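import Pool.Agent.H676.G.R_seed8.H88R3.MM.Rank

set_option autoImplicit false
set_option linter.unusedSectionVars false

/-!
# Kronecker products of bilinear algorithms, and the powers of Strassen's algorithm
-/

namespace Pool.Agent.H88R3.MM

open Finset

variable {F : Type*} [Field F]

section kron

variable {m n m' n' : Type*} [Fintype m] [Fintype n] [Fintype m'] [Fintype n']

theorem rank_fact (A : Matrix m n F) :
    ∃ (P : Matrix m (Fin A.rank) F) (Q : Matrix (Fin A.rank) n F), A = P * Q := by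
  classical
  let b := Module.finBasis F (LinearMap.range A.mulVecLin)
  refine ⟨Matrix.of fun i r => (b r : m → F) i, Matrix.of fun r j =>
    b.repr ⟨A.mulVecLin (Pi.single j 1), LinearMap.mem_range_self _ _⟩ r, ?_⟩
  ext i j
  rw [Matrix.mul_apply]
  have h := congrArg (fun v : LinearMap.range A.mulVecLin => (v : m → F) i)
    (b.sum_repr ⟨A.mulVecLin (Pi.single j 1), LinearMap.mem_range_self _ _⟩)
  simp only [Matrix.mulVecLin_apply, Matrix.mulVec_single_one, Matrix.col_apply] at h
  rw [← h, Submodule.coe_sum, Finset.sum_apply]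
  refine Finset.sum_congr rfl fun r _ => ?_
  simp only [Submodule.coe_smul, Pi.smul_apply, smul_eq_mul]
  rw [mul_comm]
  simp only [Matrix.mulVecLin_apply, Matrix.mulVec_single_one]
  rfl

theorem rank_kron_le (A : Matrix m n F) (B : Matrix m' n' F) :
    (Matrix.kroneckerMap (fun x y => x * y) A B).rank ≤ A.rank * B.rank := by
  obtain ⟨P, Q, h1⟩ := rank_fact A
  obtain ⟨P', Q', h2⟩ := rank_fact B
  have h3 : Matrix.kroneckerMap (fun x y => x * y) A B =
      Matrix.kroneckerMap (fun x y => x * y) P P' * Matrix.kroneckerMap (fun x y => x * y) Q Q' := by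
    conv_lhs => rw [h1, h2]
    exact Matrix.mul_kronecker_mul P Q P' Q'
  rw [h3]
  refine (Matrix.rank_mul_le_left _ _).trans ((Matrix.rank_le_card_width _).trans ?_)
  simp

end kron

section alg

variable {I J K L : Type*} [Fintype I] [Fintype J] [Fintype K] [Fintype L]
  {U : L → Matrix I J F} {V : L → Matrix J K F} {W : L → Matrix I K F}

theorem isAlg_of_coeff [DecidableEq I] [DecidableEq J] [DecidableEq K]
    (h : ∀ (i i' : I) (j j' : J) (k k' : K), ∑ l, U l i j * V l j' k * W l i' k' =
      if i = i' ∧ j = j' ∧ k = k' then 1 else 0) : IsAlg U V W := by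
  intro A B
  ext i' k'
  rw [Matrix.sum_apply, Matrix.mul_apply]
  have e1 : ∀ l, ((((∑ i, ∑ j, U l i j * A i j) * (∑ j, ∑ k, V l j k * B j k)) • W l) i' k') =
      ∑ i, ∑ j, ∑ j', ∑ k, (A i j * B j' k) * (U l i j * V l j' k * W l i' k') := by
    intro l
    rw [Matrix.smul_apply, smul_eq_mul]
    simp only [Finset.sum_mul]
    refine Finset.sum_congr rfl fun i _ => Finset.sum_congr rfl fun j _ => ?_
    simp only [Finset.mul_sum, Finset.sum_mul]
    refine Finset.sum_congr rfl fun j' _ => Finset.sum_congr rfl fun k _ => ?_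
    ring
  rw [Finset.sum_congr rfl fun l _ => e1 l, Finset.sum_comm]
  have e2 : ∀ i, (∑ l, ∑ j, ∑ j', ∑ k, (A i j * B j' k) * (U l i j * V l j' k * W l i' k')) =
      ∑ j, ∑ j', ∑ k, (A i j * B j' k) * (if i = i' ∧ j = j' ∧ k = k' then 1 else 0) := by
    intro i
    rw [Finset.sum_comm]
    refine Finset.sum_congr rfl fun j _ => ?_
    rw [Finset.sum_comm]
    refine Finset.sum_congr rfl fun j' _ => ?_
    rw [Finset.sum_comm]
    refine Finset.sum_congr rfl fun k _ => ?_
    rw [← Finset.mul_sum, h]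
  rw [Finset.sum_congr rfl fun i _ => e2 i, Finset.sum_eq_single i']
  · refine Finset.sum_congr rfl fun j _ => ?_
    rw [Finset.sum_eq_single j, Finset.sum_eq_single k']
    · simp
    · intro k _ hk
      simp [hk]
    · simp
    · intro j' _ hj
      refine Finset.sum_eq_zero fun k _ => ?_
      simp [Ne.symm hj]
    · simp
  · intro i _ hi
    refine Finset.sum_eq_zero fun j _ => Finset.sum_eq_zero fun j' _ =>
      Finset.sum_eq_zero fun k _ => ?_
    simp [hi]
  · simp

/-- the Kronecker product of two algorithms -/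
theorem IsAlg.kron {I' J' K' L' : Type*} [Fintype I'] [Fintype J'] [Fintype K'] [Fintype L']
    {U' : L' → Matrix I' J' F} {V' : L' → Matrix J' K' F} {W' : L' → Matrix I' K' F}
    (h : IsAlg U V W) (h' : IsAlg U' V' W') :
    IsAlg (L := L × L')
      (fun l => Matrix.kroneckerMap (fun x y => x * y) (U l.1) (U' l.2))
      (fun l => Matrix.kroneckerMap (fun x y => x * y) (V l.1) (V' l.2))
      (fun l => Matrix.kroneckerMap (fun x y => x * y) (W l.1) (W' l.2)) := by
  classical
  refine isAlg_of_coeff ?_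
  rintro ⟨i, i2⟩ ⟨i', i2'⟩ ⟨j, j2⟩ ⟨j', j2'⟩ ⟨k, k2⟩ ⟨k', k2'⟩
  simp only [Matrix.kroneckerMap_apply]
  have e : (∑ x : L × L', U x.1 i j * U' x.2 i2 j2 * (V x.1 j' k * V' x.2 j2' k2) *
      (W x.1 i' k' * W' x.2 i2' k2')) =
      (∑ l, U l i j * V l j' k * W l i' k') * ∑ l, U' l i2 j2 * V' l j2' k2 * W' l i2' k2' := by
    rw [Finset.sum_mul_sum, Fintype.sum_prod_type]
    refine Finset.sum_congr rfl fun l _ => Finset.sum_congr rfl fun l' _ => ?_
    ring
  rw [e, h.coeff, h'.coeff, ite_mul, zero_mul, one_mul, ← ite_and]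
  refine if_congr ?_ rfl rfl
  simp only [Prod.mk.injEq]
  tauto

theorem IsAlg.reindex {I' J' K' L' : Type*} [Fintype I'] [Fintype J'] [Fintype K'] [Fintype L']
    (h : IsAlg U V W) (eI : I' ≃ I) (eJ : J' ≃ J) (eK : K' ≃ K) (eL : L' ≃ L) :
    IsAlg (fun l => (U (eL l)).submatrix eI eJ) (fun l => (V (eL l)).submatrix eJ eK)
      (fun l => (W (eL l)).submatrix eI eK) := by
  classical
  refine isAlg_of_coeff ?_
  intro i i' j j' k k'
  simp only [Matrix.submatrix_apply]
  rw [Equiv.sum_comp eL (fun l => U l (eI i) (eJ j) * V l (eJ j') (eK k) * W l (eI i') (eK k')),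
    h.coeff]
  simp only [EmbeddingLike.apply_eq_iff_eq]

end alg

/-- There is an algorithm with `N` products for `n × n` matrices, where the coefficient matrices
have rank at most `r`, and the three sums of the ranks are at most `S`. -/
def Has (F : Type*) [Field F] (n N r S : ℕ) : Prop :=
  ∃ U V W : Fin N → Matrix (Fin n) (Fin n) F, IsAlg U V W ∧
    (∀ l, (U l).rank ≤ r ∧ (V l).rank ≤ r ∧ (W l).rank ≤ r) ∧
    ∑ l, (U l).rank ≤ S ∧ ∑ l, (V l).rank ≤ S ∧ ∑ l, (W l).rank ≤ S

theorem Has.mul {n N r S n' N' r' S' : ℕ} (h : Has F n N r S) (h' : Has F n' N' r' S') :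
    Has F (n * n') (N * N') (r * r') (S * S') := by
  obtain ⟨U, V, W, h1, h2, h3, h4, h5⟩ := h
  obtain ⟨U', V', W', h1', h2', h3', h4', h5'⟩ := h'
  have e : ∀ f : Fin N → Matrix (Fin n) (Fin n) F, ∀ f' : Fin N' → Matrix (Fin n') (Fin n') F,
      ∀ l : Fin (N * N'), ((Matrix.kroneckerMap (fun x y => x * y)
        (f ((finProdFinEquiv.symm l : Fin N × Fin N')).1)
        (f' ((finProdFinEquiv.symm l : Fin N × Fin N')).2)).submatrix
          (finProdFinEquiv.symm : Fin (n * n') ≃ _) (finProdFinEquiv.symm : Fin (n * n') ≃ _)).rank ≤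
        (f ((finProdFinEquiv.symm l : Fin N × Fin N')).1).rank *
          (f' ((finProdFinEquiv.symm l : Fin N × Fin N')).2).rank := by
    intro f f' l
    rw [Matrix.rank_submatrix]
    exact rank_kron_le _ _
  have e2 : ∀ f : Fin N → Matrix (Fin n) (Fin n) F, ∀ f' : Fin N' → Matrix (Fin n') (Fin n') F,
      ∑ l, (f l).rank ≤ S → ∑ l, (f' l).rank ≤ S' →
      ∑ l : Fin (N * N'), ((Matrix.kroneckerMap (fun x y => x * y)
        (f ((finProdFinEquiv.symm l : Fin N × Fin N')).1)
        (f' ((finProdFinEquiv.symm l : Fin N × Fin N')).2)).submatrix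
          (finProdFinEquiv.symm : Fin (n * n') ≃ _) (finProdFinEquiv.symm : Fin (n * n') ≃ _)).rank ≤
        S * S' := by
    intro f f' hf hf'
    refine (sum_le_sum fun l _ => e f f' l).trans ?_
    rw [Equiv.sum_comp (finProdFinEquiv.symm : Fin (N * N') ≃ _)
      (fun l : Fin N × Fin N' => (f l.1).rank * (f' l.2).rank), Fintype.sum_prod_type]
    refine le_trans (le_of_eq ?_) (Nat.mul_le_mul hf hf')
    rw [Finset.sum_mul_sum]
  refine ⟨_, _, _, (h1.kron h1').reindex finProdFinEquiv.symm finProdFinEquiv.symm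
    finProdFinEquiv.symm finProdFinEquiv.symm, fun l => ⟨?_, ?_, ?_⟩, e2 U U' h3 h3',
    e2 V V' h4 h4', e2 W W' h5 h5'⟩
  · exact (e U U' l).trans (Nat.mul_le_mul (h2 _).1 (h2' _).1)
  · exact (e V V' l).trans (Nat.mul_le_mul (h2 _).2.1 (h2' _).2.1)
  · exact (e W W' l).trans (Nat.mul_le_mul (h2 _).2.2 (h2' _).2.2)

theorem rank_single_le {m n : Type*} [Fintype m] [Fintype n] [DecidableEq m] [DecidableEq n]
    (i : m) (j : n) : (Matrix.single i j (1 : F)).rank ≤ 1 := by
  rw [Matrix.single_eq_single_vecMulVec_single]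
  exact Matrix.rank_vecMulVec_le _ _

theorem has_school (q : ℕ) : Has F q (q ^ 3) 1 (q ^ 3) := by
  have h : IsAlg (L := Fin q × Fin q × Fin q)
      (fun l => Matrix.single l.1 l.2.1 (1 : F)) (fun l => Matrix.single l.2.1 l.2.2 (1 : F))
      (fun l => Matrix.single l.1 l.2.2 (1 : F)) := by
    refine isAlg_of_coeff ?_
    intro i i' j j' k k'
    rw [Fintype.sum_prod_type, Finset.sum_eq_single i]
    · rw [Fintype.sum_prod_type, Finset.sum_eq_single j]
      · rw [Finset.sum_eq_single k]
        · simp only [Matrix.single_apply, and_true, if_true, one_mul]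
          by_cases h1 : i = i' <;> by_cases h2 : j = j' <;> by_cases h3 : k = k' <;>
            simp [h1, h2, h3]
        · intro b _ hb
          simp [Matrix.single_apply, hb]
        · simp
      · intro b _ hb
        refine Finset.sum_eq_zero fun x _ => ?_
        simp [Matrix.single_apply, hb]
      · simp
    · intro b _ hb
      refine Finset.sum_eq_zero fun x _ => ?_
      simp [Matrix.single_apply, hb]
    · simp
  let e : Fin (q ^ 3) ≃ Fin q × Fin q × Fin q :=
    Fintype.equivOfCardEq (by simp [pow_succ, mul_assoc])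
  refine ⟨_, _, _, h.reindex (Equiv.refl _) (Equiv.refl _) (Equiv.refl _) e, fun l => ?_, ?_, ?_, ?_⟩
  · simp only [Equiv.coe_refl, Matrix.submatrix_id_id]
    exact ⟨rank_single_le _ _, rank_single_le _ _, rank_single_le _ _⟩
  · simp only [Equiv.coe_refl, Matrix.submatrix_id_id]
    refine (sum_le_sum fun l _ => rank_single_le _ _).trans ?_
    simp
  · simp only [Equiv.coe_refl, Matrix.submatrix_id_id]
    refine (sum_le_sum fun l _ => rank_single_le _ _).trans ?_
    simp
  · simp only [Equiv.coe_refl, Matrix.submatrix_id_id]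
    refine (sum_le_sum fun l _ => rank_single_le _ _).trans ?_
    simp

theorem has_strassen : Has F 2 7 2 8 :=
  ⟨sU F, sV F, sW F, strassen F, fun _ => ⟨Matrix.rank_le_width _, Matrix.rank_le_width _,
    Matrix.rank_le_width _⟩, sum_sU, sum_sV, sum_sW⟩

theorem has_strassen_pow (k : ℕ) : Has F (2 ^ k) (7 ^ k) (2 ^ k) (8 ^ k) := by
  induction k with
  | zero => simpa using has_school (F := F) 1
  | succ k ih =>
    rw [pow_succ, pow_succ, pow_succ]
    exact ih.mul has_strassen

end Pool.Agent.H88R3.MM
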