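import Mathlib

set_option autoImplicit false
set_option linter.unusedSectionVars false

/-!
# The sum of the ranks of the linear forms of an algorithm for matrix multiplication
-/

namespace Pool.Agent.H88R3.MM

open Finset

universe u

variable {F : Type*} [Field F]

section rank

variable {m n : Type*} [Fintype m] [Fintype n]

theorem rank_add_le (A B : Matrix m n F) : (A + B).rank ≤ A.rank + B.rank := by
  rw [Matrix.rank, Matrix.rank, Matrix.rank, Matrix.mulVecLin_add]
  refine le_trans (Submodule.finrank_mono ?_)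
    (Submodule.finrank_add_le_finrank_add_finrank
      (LinearMap.range A.mulVecLin) (LinearMap.range B.mulVecLin))
  rintro _ ⟨x, rfl⟩
  exact Submodule.add_mem_sup ⟨x, rfl⟩ ⟨x, rfl⟩

theorem rank_sum_le {ι : Type*} (s : Finset ι) (A : ι → Matrix m n F) :
    (∑ l ∈ s, A l).rank ≤ ∑ l ∈ s, (A l).rank := by
  classical
  induction s using Finset.induction_on with
  | empty => simp
  | insert a s ha ih =>
    rw [sum_insert ha, sum_insert ha]
    exact (rank_add_le _ _).trans (Nat.add_le_add_left ih _)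

theorem rank_scaled {I J : Type*} [Fintype I] [Fintype J] (A : Matrix I J F) (f : m → F)
    (g : n → F) (r : m → I) (c : n → J) :
    (Matrix.of fun x y => f x * A (r x) (c y) * g y).rank ≤ A.rank := by
  classical
  have e : (Matrix.of fun x y => f x * A (r x) (c y) * g y) =
      Matrix.diagonal f * A.submatrix r c * Matrix.diagonal g := by
    ext x y
    rw [Matrix.mul_diagonal, Matrix.diagonal_mul]
    rfl
  rw [e]
  exact ((Matrix.rank_mul_le_left _ _).trans (Matrix.rank_mul_le_right _ _)).trans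
    (Matrix.rank_submatrix_le _ _ _)

theorem rank_perm [DecidableEq n] (e : m ≃ n) :
    (Matrix.of fun (x : m) (y : n) => if e x = y then (1 : F) else 0).rank = Fintype.card n := by
  have h : (Matrix.of fun (x : m) (y : n) => if e x = y then (1 : F) else 0) =
      (1 : Matrix n n F).submatrix e (Equiv.refl n) := by
    ext x y
    simp [Matrix.one_apply]
  rw [h, Matrix.rank_submatrix, Matrix.rank_one]

theorem rank_le_nnz [DecidableEq F] (A : Matrix m n F) :
    A.rank ≤ (univ.filter fun x : m × n => A x.1 x.2 ≠ 0).card := by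
  classical
  refine (Matrix.rank_le_card_of_support_subset A
    ((univ.filter fun x : m × n => A x.1 x.2 ≠ 0).image Prod.fst) ?_).trans card_image_le
  intro i hi
  rw [Function.mem_support] at hi
  obtain ⟨j, hj⟩ := Function.ne_iff.1 hi
  simp only [coe_image, Set.mem_image, mem_coe, mem_filter, mem_univ, true_and]
  exact ⟨(i, j), hj, rfl⟩

end rank

/-- A bilinear algorithm for the product of an `I × J` by a `J × K` matrix: the products of the
linear forms with the coefficient matrices `U l` and `V l` are combined with the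
coefficient matrices `W l`. -/
def IsAlg {I J K L : Type*} [Fintype I] [Fintype J] [Fintype K] [Fintype L]
    (U : L → Matrix I J F) (V : L → Matrix J K F) (W : L → Matrix I K F) : Prop :=
  ∀ (A : Matrix I J F) (B : Matrix J K F), A * B =
    ∑ l, ((∑ i, ∑ j, U l i j * A i j) * (∑ j, ∑ k, V l j k * B j k)) • W l

section main

variable {I J K L : Type*} [Fintype I] [Fintype J] [Fintype K] [Fintype L]
  {U : L → Matrix I J F} {V : L → Matrix J K F} {W : L → Matrix I K F}

theorem IsAlg.coeff [DecidableEq I] [DecidableEq J] [DecidableEq K] (h : IsAlg U V W)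
    (i i' : I) (j j' : J) (k k' : K) :
    ∑ l, U l i j * V l j' k * W l i' k' = if i = i' ∧ j = j' ∧ k = k' then 1 else 0 := by
  have h1 := congrFun (congrFun (h (Matrix.single i j 1) (Matrix.single j' k 1)) i') k'
  rw [Matrix.sum_apply] at h1
  have e1 : ∀ l, (∑ a, ∑ b, U l a b * Matrix.single i j (1 : F) a b) = U l i j := by
    intro l
    rw [Finset.sum_eq_single i, Finset.sum_eq_single j]
    · simp
    · intro b _ hb
      simp [Ne.symm hb]
    · simp
    · intro a _ ha
      simp [Ne.symm ha]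
    · simp
  have e2 : ∀ l, (∑ a, ∑ b, V l a b * Matrix.single j' k (1 : F) a b) = V l j' k := by
    intro l
    rw [Finset.sum_eq_single j', Finset.sum_eq_single k]
    · simp
    · intro b _ hb
      simp [Ne.symm hb]
    · simp
    · intro a _ ha
      simp [Ne.symm ha]
    · simp
  simp only [e1, e2, Matrix.smul_apply, smul_eq_mul] at h1
  rw [← h1]
  by_cases hj : j = j'
  · subst hj
    rw [Matrix.single_mul_single_same, mul_one, Matrix.single_apply]
    simp
  · rw [Matrix.single_mul_single_of_ne _ _ _ _ hj, if_neg (fun hc => hj hc.2.1)]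
    rfl

/-- The matrices of the first linear forms. -/
theorem IsAlg.card_le_U (h : IsAlg U V W) :
    Fintype.card I * Fintype.card J * Fintype.card K ≤ ∑ l, (U l).rank := by
  classical
  let e : I × (J × K) ≃ J × (I × K) :=
    { toFun := fun x => (x.2.1, (x.1, x.2.2))
      invFun := fun y => (y.2.1, (y.1, y.2.2))
      left_inv := fun _ => rfl
      right_inv := fun _ => rfl }
  let M : L → Matrix (I × (J × K)) (J × (I × K)) F := fun l =>
    Matrix.of fun x y => V l x.2.1 x.2.2 * U l x.1 y.1 * W l y.2.1 y.2.2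
  have h1 : (∑ l, M l) = Matrix.of fun x y => if e x = y then (1 : F) else 0 := by
    ext x y
    obtain ⟨i, j', k⟩ := x
    obtain ⟨j, i', k'⟩ := y
    rw [Matrix.sum_apply]
    have h2 := h.coeff i i' j j' k k'
    simp only [M, e, Matrix.of_apply, Equiv.coe_fn_mk, Prod.mk.injEq]
    rw [Finset.sum_congr rfl fun l _ => by
      rw [show V l j' k * U l i j * W l i' k' = U l i j * V l j' k * W l i' k' by ring], h2]
    refine if_congr ?_ rfl rfl
    constructor
    · rintro ⟨h3, h4, h5⟩
      exact ⟨h4.symm, h3, h5⟩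
    · rintro ⟨h3, h4, h5⟩
      exact ⟨h4, h3.symm, h5⟩
  have h3 := rank_sum_le univ M
  rw [h1, rank_perm e] at h3
  have h4 : ∀ l, (M l).rank ≤ (U l).rank := fun l =>
    rank_scaled (U l) (fun x : I × (J × K) => V l x.2.1 x.2.2)
      (fun y : J × (I × K) => W l y.2.1 y.2.2) Prod.fst Prod.fst
  refine le_trans (le_of_eq ?_) (h3.trans (sum_le_sum fun l _ => h4 l))
  rw [Fintype.card_prod, Fintype.card_prod]
  ring

/-- The matrices of the second linear forms. -/
theorem IsAlg.card_le_V (h : IsAlg U V W) :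
    Fintype.card I * Fintype.card J * Fintype.card K ≤ ∑ l, (V l).rank := by
  classical
  let e : J × (I × K) ≃ K × (I × J) :=
    { toFun := fun x => (x.2.2, (x.2.1, x.1))
      invFun := fun y => (y.2.2, (y.2.1, y.1))
      left_inv := fun _ => rfl
      right_inv := fun _ => rfl }
  let M : L → Matrix (J × (I × K)) (K × (I × J)) F := fun l =>
    Matrix.of fun x y => W l x.2.1 x.2.2 * V l x.1 y.1 * U l y.2.1 y.2.2
  have h1 : (∑ l, M l) = Matrix.of fun x y => if e x = y then (1 : F) else 0 := by
    ext x y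
    obtain ⟨j', i', k'⟩ := x
    obtain ⟨k, i, j⟩ := y
    rw [Matrix.sum_apply]
    have h2 := h.coeff i i' j j' k k'
    simp only [M, e, Matrix.of_apply, Equiv.coe_fn_mk, Prod.mk.injEq]
    rw [Finset.sum_congr rfl fun l _ => by
      rw [show W l i' k' * V l j' k * U l i j = U l i j * V l j' k * W l i' k' by ring], h2]
    refine if_congr ?_ rfl rfl
    constructor
    · rintro ⟨h3, h4, h5⟩
      exact ⟨h5.symm, h3.symm, h4.symm⟩
    · rintro ⟨h3, h4, h5⟩
      exact ⟨h4.symm, h5.symm, h3.symm⟩
  have h3 := rank_sum_le univ M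
  rw [h1, rank_perm e] at h3
  have h4 : ∀ l, (M l).rank ≤ (V l).rank := fun l =>
    rank_scaled (V l) (fun x : J × (I × K) => W l x.2.1 x.2.2)
      (fun y : K × (I × J) => U l y.2.1 y.2.2) Prod.fst Prod.fst
  refine le_trans (le_of_eq ?_) (h3.trans (sum_le_sum fun l _ => h4 l))
  rw [Fintype.card_prod, Fintype.card_prod]
  ring

/-- The matrices with which the products enter into the result. -/
theorem IsAlg.card_le_W (h : IsAlg U V W) :
    Fintype.card I * Fintype.card J * Fintype.card K ≤ ∑ l, (W l).rank := by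
  classical
  let e : I × (J × K) ≃ K × (I × J) :=
    { toFun := fun x => (x.2.2, (x.1, x.2.1))
      invFun := fun y => (y.2.1, (y.2.2, y.1))
      left_inv := fun _ => rfl
      right_inv := fun _ => rfl }
  let M : L → Matrix (I × (J × K)) (K × (I × J)) F := fun l =>
    Matrix.of fun x y => V l x.2.1 x.2.2 * W l x.1 y.1 * U l y.2.1 y.2.2
  have h1 : (∑ l, M l) = Matrix.of fun x y => if e x = y then (1 : F) else 0 := by
    ext x y
    obtain ⟨i', j', k⟩ := x
    obtain ⟨k', i, j⟩ := y
    rw [Matrix.sum_apply]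
    have h2 := h.coeff i i' j j' k k'
    simp only [M, e, Matrix.of_apply, Equiv.coe_fn_mk, Prod.mk.injEq]
    rw [Finset.sum_congr rfl fun l _ => by
      rw [show V l j' k * W l i' k' * U l i j = U l i j * V l j' k * W l i' k' by ring], h2]
    refine if_congr ?_ rfl rfl
    constructor
    · rintro ⟨h3, h4, h5⟩
      exact ⟨h5, h3.symm, h4.symm⟩
    · rintro ⟨h3, h4, h5⟩
      exact ⟨h4.symm, h5.symm, h3⟩
  have h3 := rank_sum_le univ M
  rw [h1, rank_perm e] at h3
  have h4 : ∀ l, (M l).rank ≤ (W l).rank := fun l =>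
    rank_scaled (W l) (fun x : I × (J × K) => V l x.2.1 x.2.2)
      (fun y : K × (I × J) => U l y.2.1 y.2.2) Prod.fst Prod.fst
  refine le_trans (le_of_eq ?_) (h3.trans (sum_le_sum fun l _ => h4 l))
  rw [Fintype.card_prod, Fintype.card_prod]
  ring

end main

/-! ### Block algorithms -/

section blocks

variable {S L : Type*} [Fintype S] [Fintype L] {U V W : L → Matrix S S F}

/-- the block algorithm -/
def blk (Q : Type*) [DecidableEq Q] (U : L → Matrix S S F) (p : Q × Q × Q × L → Q)
    (p' : Q × Q × Q × L → Q) (t : Q × Q × Q × L) : Matrix (Q × S) (Q × S) F :=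
  Matrix.of fun x y => (if p t = x.1 then 1 else 0) * U t.2.2.2 x.2 y.2 *
    (if p' t = y.1 then 1 else 0)

theorem rank_blk {Q : Type*} [Fintype Q] [DecidableEq Q] (U : L → Matrix S S F)
    (p p' : Q × Q × Q × L → Q) (t : Q × Q × Q × L) : (blk Q U p p' t).rank ≤ (U t.2.2.2).rank :=
  rank_scaled (U t.2.2.2) (fun x : Q × S => if p t = x.1 then 1 else 0)
    (fun y : Q × S => if p' t = y.1 then 1 else 0) Prod.snd Prod.snd

theorem form_blk {Q : Type*} [Fintype Q] [DecidableEq Q] (U : L → Matrix S S F)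
    (p p' : Q × Q × Q × L → Q) (t : Q × Q × Q × L) (A : Matrix (Q × S) (Q × S) F) :
    (∑ x, ∑ y, blk Q U p p' t x y * A x y) =
      ∑ i, ∑ j, U t.2.2.2 i j * A (p t, i) (p' t, j) := by
  rw [Fintype.sum_prod_type, Finset.sum_eq_single (p t)]
  · refine Finset.sum_congr rfl fun i _ => ?_
    rw [Fintype.sum_prod_type, Finset.sum_eq_single (p' t)]
    · refine Finset.sum_congr rfl fun j _ => ?_
      simp [blk]
    · intro b _ hb
      refine Finset.sum_eq_zero fun j _ => ?_
      simp [blk, Ne.symm hb]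
    · simp
  · intro a _ ha
    refine Finset.sum_eq_zero fun i _ => Finset.sum_eq_zero fun y _ => ?_
    simp [blk, Ne.symm ha]
  · simp

theorem IsAlg.blocks (h : IsAlg U V W) (Q : Type*) [Fintype Q] [DecidableEq Q] :
    IsAlg (blk Q U (fun t => t.1) (fun t => t.2.1)) (blk Q V (fun t => t.2.1) (fun t => t.2.2.1))
      (blk Q W (fun t => t.1) (fun t => t.2.2.1)) := by
  intro A B
  ext ⟨x, i⟩ ⟨z, k⟩
  rw [Matrix.sum_apply]
  simp only [form_blk, Matrix.smul_apply, smul_eq_mul]
  have h1 : ∀ y : Q, (∑ j, A (x, i) (y, j) * B (y, j) (z, k)) =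
      ∑ l, ((∑ i, ∑ j, U l i j * A (x, i) (y, j)) * (∑ j, ∑ k, V l j k * B (y, j) (z, k))) *
        W l i k := by
    intro y
    have h2 := congrFun (congrFun (h (Matrix.of fun i j => A (x, i) (y, j))
      (Matrix.of fun j k => B (y, j) (z, k))) i) k
    rw [Matrix.mul_apply, Matrix.sum_apply] at h2
    simpa using h2
  rw [Matrix.mul_apply, Fintype.sum_prod_type, Finset.sum_congr rfl fun y _ => h1 y]
  symm
  rw [Fintype.sum_prod_type, Finset.sum_eq_single x]
  · rw [Fintype.sum_prod_type]
    refine Finset.sum_congr rfl fun y _ => ?_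
    rw [Fintype.sum_prod_type, Finset.sum_eq_single z]
    · refine Finset.sum_congr rfl fun l _ => ?_
      simp [blk]
    · intro b _ hb
      refine Finset.sum_eq_zero fun l _ => ?_
      simp [blk, hb]
    · simp
  · intro a _ ha
    refine Finset.sum_eq_zero fun t _ => ?_
    simp [blk, ha]
  · simp

end blocks

/-! ### Strassen's algorithm -/

/-- coefficient matrices of the first factors in Strassen's algorithm -/
def sU (F : Type*) [Field F] : Fin 7 → Matrix (Fin 2) (Fin 2) F :=
  ![1, Matrix.vecMulVec ![0, 1] ![1, 1], Matrix.vecMulVec ![1, 0] ![1, 0],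
    Matrix.vecMulVec ![0, 1] ![0, 1], Matrix.vecMulVec ![1, 0] ![1, 1],
    Matrix.vecMulVec ![-1, 1] ![1, 0], Matrix.vecMulVec ![1, -1] ![0, 1]]

/-- coefficient matrices of the second factors -/
def sV (F : Type*) [Field F] : Fin 7 → Matrix (Fin 2) (Fin 2) F :=
  ![1, Matrix.vecMulVec ![1, 0] ![1, 0], Matrix.vecMulVec ![1, -1] ![0, 1],
    Matrix.vecMulVec ![-1, 1] ![1, 0], Matrix.vecMulVec ![0, 1] ![0, 1],
    Matrix.vecMulVec ![1, 0] ![1, 1], Matrix.vecMulVec ![0, 1] ![1, 1]]

/-- coefficient matrices of the products in the result -/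
def sW (F : Type*) [Field F] : Fin 7 → Matrix (Fin 2) (Fin 2) F :=
  ![1, Matrix.vecMulVec ![0, 1] ![1, -1], Matrix.vecMulVec ![1, 1] ![0, 1],
    Matrix.vecMulVec ![1, 1] ![1, 0], Matrix.vecMulVec ![1, 0] ![-1, 1],
    Matrix.vecMulVec ![0, 1] ![0, 1], Matrix.vecMulVec ![1, 0] ![1, 0]]

theorem strassen (F : Type*) [Field F] : IsAlg (sU F) (sV F) (sW F) := by
  intro A B
  ext i k
  rw [Matrix.sum_apply]
  fin_cases i <;> fin_cases k <;>
    simp [Fin.sum_univ_succ, Matrix.mul_apply, sU, sV, sW, Matrix.vecMulVec_apply,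
      Matrix.one_apply] <;> ring

theorem sum_rank_le (f : Fin 7 → Matrix (Fin 2) (Fin 2) F) (h : ∀ l : Fin 6, (f l.succ).rank ≤ 1) :
    ∑ l, (f l).rank ≤ 8 := by
  rw [Fin.sum_univ_succ]
  have h1 : (f 0).rank ≤ 2 := Matrix.rank_le_width _
  have h2 : ∑ l : Fin 6, (f l.succ).rank ≤ ∑ _l : Fin 6, 1 := sum_le_sum fun l _ => h l
  simp at h2
  omega

theorem sum_sU : ∑ l, (sU F l).rank ≤ 8 :=
  sum_rank_le _ fun l => by fin_cases l <;> exact Matrix.rank_vecMulVec_le _ _

theorem sum_sV : ∑ l, (sV F l).rank ≤ 8 :=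
  sum_rank_le _ fun l => by fin_cases l <;> exact Matrix.rank_vecMulVec_le _ _

theorem sum_sW : ∑ l, (sW F l).rank ≤ 8 :=
  sum_rank_le _ fun l => by fin_cases l <;> exact Matrix.rank_vecMulVec_le _ _

end Pool.Agent.H88R3.MM
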